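import Mathlib
import Pool.Agent.X102.LapC
import Pool.Agent.X102.Curve

set_option autoImplicit false

open Filter Topology Set MeasureTheory Laplacian InnerProductSpace
open Pool.Agent.X102 Pool.Agent.X102.Curve

namespace Pool.Agent.Results.MP_0fb7ac_an.LargeDiameter

/-- `|1 - z²|² + d²` in coordinates -/
noncomputable def S (d x y : ℝ) : ℝ := (1 - x ^ 2 + y ^ 2) ^ 2 + 4 * x ^ 2 * y ^ 2 + d ^ 2

noncomputable def Sx (x y : ℝ) : ℝ := 4 * x * (x ^ 2 + y ^ 2) - 4 * x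
noncomputable def Sy (x y : ℝ) : ℝ := 4 * y * (x ^ 2 + y ^ 2) + 4 * y

/-- square root of `S` -/
noncomputable def s (d x y : ℝ) : ℝ := Real.sqrt (S d x y)

/-- `|z|²/R² + s` -/
noncomputable def q (R d x y : ℝ) : ℝ := (x ^ 2 + y ^ 2) / R ^ 2 + s d x y

/-- the conformal factor in coordinates -/
noncomputable def U (R d x y : ℝ) : ℝ :=
  Real.log (2 / R) - 1 / 4 * Real.log (S d x y) - Real.log (q R d x y)

variable {R d : ℝ}

lemma S_pos (hd : 0 < d) (x y : ℝ) : 0 < S d x y := by unfold S; positivity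

lemma s_pos (hd : 0 < d) (x y : ℝ) : 0 < s d x y := Real.sqrt_pos.mpr (S_pos hd x y)

lemma s_sq (hd : 0 < d) (x y : ℝ) : s d x y ^ 2 = S d x y := Real.sq_sqrt (S_pos hd x y).le

lemma q_pos (hR : 0 < R) (hd : 0 < d) (x y : ℝ) : 0 < q R d x y := by
  have := s_pos hd x y
  unfold q; positivity

lemma hasDerivAt_S_x (x y : ℝ) : HasDerivAt (fun t => S d t y) (Sx x y) x := by
  unfold S Sx
  have h1 : HasDerivAt (fun t : ℝ => 1 - t ^ 2 + y ^ 2) (-(2 * x)) x := by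
    have := (((hasDerivAt_pow 2 x).const_sub 1).add_const (y ^ 2))
    simpa using this
  have h2 : HasDerivAt (fun t : ℝ => 4 * t ^ 2 * y ^ 2) (8 * x * y ^ 2) x := by
    have h0 : HasDerivAt (fun t : ℝ => t ^ 2) (2 * x) x := by simpa using hasDerivAt_pow 2 x
    refine ((h0.const_mul 4).mul_const (y ^ 2)).congr_deriv ?_
    ring
  refine (((h1.pow 2).add h2).add_const (d ^ 2)).congr_deriv ?_
  simp
  ring

lemma hasDerivAt_S_y (x y : ℝ) : HasDerivAt (fun t => S d x t) (Sy x y) y := by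
  unfold S Sy
  have h1 : HasDerivAt (fun t : ℝ => 1 - x ^ 2 + t ^ 2) (2 * y) y := by
    have := ((hasDerivAt_pow 2 y).const_add (1 - x ^ 2))
    simpa using this
  have h2 : HasDerivAt (fun t : ℝ => 4 * x ^ 2 * t ^ 2) (8 * x ^ 2 * y) y := by
    have := ((hasDerivAt_pow 2 y).const_mul (4 * x ^ 2))
    refine this.congr_deriv ?_
    simp
    ring
  refine (((h1.pow 2).add h2).add_const (d ^ 2)).congr_deriv ?_
  simp
  ring

lemma hasDerivAt_Sx_x (x y : ℝ) : HasDerivAt (fun t => Sx t y) (12 * x ^ 2 + 4 * y ^ 2 - 4) x := by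
  have h : (fun t => Sx t y) = fun t => 4 * t ^ 3 + (4 * y ^ 2 - 4) * t := by
    ext t; unfold Sx; ring
  rw [h]
  have := ((hasDerivAt_pow 3 x).const_mul 4).add ((hasDerivAt_id x).const_mul (4 * y ^ 2 - 4))
  refine this.congr_deriv ?_
  simp
  ring

lemma hasDerivAt_Sy_y (x y : ℝ) : HasDerivAt (fun t => Sy x t) (12 * y ^ 2 + 4 * x ^ 2 + 4) y := by
  have h : (fun t => Sy x t) = fun t => 4 * t ^ 3 + (4 * x ^ 2 + 4) * t := by
    ext t; unfold Sy; ring
  rw [h]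
  have := ((hasDerivAt_pow 3 y).const_mul 4).add ((hasDerivAt_id y).const_mul (4 * x ^ 2 + 4))
  refine this.congr_deriv ?_
  simp
  ring

lemma hasDerivAt_s_x (hd : 0 < d) (x y : ℝ) :
    HasDerivAt (fun t => s d t y) (Sx x y / (2 * s d x y)) x :=
  (hasDerivAt_S_x x y).sqrt (S_pos hd x y).ne'

lemma hasDerivAt_s_y (hd : 0 < d) (x y : ℝ) :
    HasDerivAt (fun t => s d x t) (Sy x y / (2 * s d x y)) y :=
  (hasDerivAt_S_y x y).sqrt (S_pos hd x y).ne'

lemma hasDerivAt_q_x (hd : 0 < d) (x y : ℝ) :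
    HasDerivAt (fun t => q R d t y) (2 * x / R ^ 2 + Sx x y / (2 * s d x y)) x := by
  unfold q
  have h1 : HasDerivAt (fun t : ℝ => (t ^ 2 + y ^ 2) / R ^ 2) (2 * x / R ^ 2) x := by
    have := ((hasDerivAt_pow 2 x).add_const (y ^ 2)).div_const (R ^ 2)
    simpa using this
  exact h1.add (hasDerivAt_s_x hd x y)

lemma hasDerivAt_q_y (hd : 0 < d) (x y : ℝ) :
    HasDerivAt (fun t => q R d x t) (2 * y / R ^ 2 + Sy x y / (2 * s d x y)) y := by
  unfold q
  have h1 : HasDerivAt (fun t : ℝ => (x ^ 2 + t ^ 2) / R ^ 2) (2 * y / R ^ 2) y := by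
    have := ((hasDerivAt_pow 2 y).const_add (x ^ 2)).div_const (R ^ 2)
    simpa using this
  exact h1.add (hasDerivAt_s_y hd x y)

lemma hasDerivAt_qx_x (hd : 0 < d) (x y : ℝ) :
    HasDerivAt (fun t => 2 * t / R ^ 2 + Sx t y / (2 * s d t y))
      (2 / R ^ 2 + ((12 * x ^ 2 + 4 * y ^ 2 - 4) / (2 * s d x y) - Sx x y ^ 2 / (4 * s d x y ^ 3))) x := by
  have hs := s_pos hd x y
  have h1 : HasDerivAt (fun t : ℝ => 2 * t / R ^ 2) (2 / R ^ 2) x := by
    have := ((hasDerivAt_id x).const_mul 2).div_const (R ^ 2)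
    simpa using this
  have h2 := (hasDerivAt_Sx_x x y).div ((hasDerivAt_s_x hd x y).const_mul 2) (by positivity)
  refine (h1.add h2).congr_deriv ?_
  congr 1
  field_simp
  ring

lemma hasDerivAt_qy_y (hd : 0 < d) (x y : ℝ) :
    HasDerivAt (fun t => 2 * t / R ^ 2 + Sy x t / (2 * s d x t))
      (2 / R ^ 2 + ((12 * y ^ 2 + 4 * x ^ 2 + 4) / (2 * s d x y) - Sy x y ^ 2 / (4 * s d x y ^ 3))) y := by
  have hs := s_pos hd x y
  have h1 : HasDerivAt (fun t : ℝ => 2 * t / R ^ 2) (2 / R ^ 2) y := by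
    have := ((hasDerivAt_id y).const_mul 2).div_const (R ^ 2)
    simpa using this
  have h2 := (hasDerivAt_Sy_y x y).div ((hasDerivAt_s_y hd x y).const_mul 2) (by positivity)
  refine (h1.add h2).congr_deriv ?_
  congr 1
  field_simp
  ring

lemma hasDerivAt_U_x (hR : 0 < R) (hd : 0 < d) (x y : ℝ) :
    HasDerivAt (fun t => U R d t y) (-(1 / 4) * (Sx x y / S d x y)
      - (2 * x / R ^ 2 + Sx x y / (2 * s d x y)) / q R d x y) x := by
  unfold U
  have h1 := ((hasDerivAt_S_x (d := d) x y).log (S_pos hd x y).ne').const_mul (1 / 4)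
  have h2 := (hasDerivAt_q_x (R := R) hd x y).log (q_pos hR hd x y).ne'
  refine ((h1.const_sub (Real.log (2 / R))).sub h2).congr_deriv ?_
  ring

lemma hasDerivAt_U_y (hR : 0 < R) (hd : 0 < d) (x y : ℝ) :
    HasDerivAt (fun t => U R d x t) (-(1 / 4) * (Sy x y / S d x y)
      - (2 * y / R ^ 2 + Sy x y / (2 * s d x y)) / q R d x y) y := by
  unfold U
  have h1 := ((hasDerivAt_S_y (d := d) x y).log (S_pos hd x y).ne').const_mul (1 / 4)
  have h2 := (hasDerivAt_q_y (R := R) hd x y).log (q_pos hR hd x y).ne'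
  refine ((h1.const_sub (Real.log (2 / R))).sub h2).congr_deriv ?_
  ring

/-- second derivative in `x` -/
noncomputable def Uxx (R d x y : ℝ) : ℝ :=
  -(1 / 4) * (((12 * x ^ 2 + 4 * y ^ 2 - 4) * S d x y - Sx x y ^ 2) / S d x y ^ 2)
    - ((2 / R ^ 2 + ((12 * x ^ 2 + 4 * y ^ 2 - 4) / (2 * s d x y) - Sx x y ^ 2 / (4 * s d x y ^ 3)))
        * q R d x y - (2 * x / R ^ 2 + Sx x y / (2 * s d x y)) ^ 2) / q R d x y ^ 2

/-- second derivative in `y` -/
noncomputable def Uyy (R d x y : ℝ) : ℝ :=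
  -(1 / 4) * (((12 * y ^ 2 + 4 * x ^ 2 + 4) * S d x y - Sy x y ^ 2) / S d x y ^ 2)
    - ((2 / R ^ 2 + ((12 * y ^ 2 + 4 * x ^ 2 + 4) / (2 * s d x y) - Sy x y ^ 2 / (4 * s d x y ^ 3)))
        * q R d x y - (2 * y / R ^ 2 + Sy x y / (2 * s d x y)) ^ 2) / q R d x y ^ 2

lemma hasDerivAt_Ux_x (hR : 0 < R) (hd : 0 < d) (x y : ℝ) :
    HasDerivAt (fun t => -(1 / 4) * (Sx t y / S d t y)
      - (2 * t / R ^ 2 + Sx t y / (2 * s d t y)) / q R d t y) (Uxx R d x y) x := by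
  have h1 := ((hasDerivAt_Sx_x x y).div (hasDerivAt_S_x (d := d) x y) (S_pos hd x y).ne').const_mul
    (-(1 / 4))
  have h2 := (hasDerivAt_qx_x (R := R) hd x y).div (hasDerivAt_q_x (R := R) hd x y)
    (q_pos hR hd x y).ne'
  refine (h1.sub h2).congr_deriv ?_
  unfold Uxx
  ring

lemma hasDerivAt_Uy_y (hR : 0 < R) (hd : 0 < d) (x y : ℝ) :
    HasDerivAt (fun t => -(1 / 4) * (Sy x t / S d x t)
      - (2 * t / R ^ 2 + Sy x t / (2 * s d x t)) / q R d x t) (Uyy R d x y) y := by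
  have h1 := ((hasDerivAt_Sy_y x y).div (hasDerivAt_S_y (d := d) x y) (S_pos hd x y).ne').const_mul
    (-(1 / 4))
  have h2 := (hasDerivAt_qy_y (R := R) hd x y).div (hasDerivAt_q_y (R := R) hd x y)
    (q_pos hR hd x y).ne'
  refine (h1.sub h2).congr_deriv ?_
  unfold Uyy
  ring

/-- the metric exponent -/
noncomputable def u (R d : ℝ) (z : ℂ) : ℝ := U R d z.re z.im

lemma contDiff_S {n : WithTop ℕ∞} : ContDiff ℝ n (fun z : ℂ => S d z.re z.im) := by
  have h1 : ContDiff ℝ n (fun z : ℂ => z.re) := Complex.reCLM.contDiff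
  have h2 : ContDiff ℝ n (fun z : ℂ => z.im) := Complex.imCLM.contDiff
  unfold S
  fun_prop

lemma contDiff_s {n : WithTop ℕ∞} (hd : 0 < d) : ContDiff ℝ n (fun z : ℂ => s d z.re z.im) :=
  contDiff_S.sqrt (fun z => (S_pos hd _ _).ne')

lemma contDiff_q {n : WithTop ℕ∞} (hd : 0 < d) : ContDiff ℝ n (fun z : ℂ => q R d z.re z.im) := by
  have h1 : ContDiff ℝ n (fun z : ℂ => z.re) := Complex.reCLM.contDiff
  have h2 : ContDiff ℝ n (fun z : ℂ => z.im) := Complex.imCLM.contDiff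
  have h3 := contDiff_s (n := n) hd
  unfold q
  fun_prop

lemma contDiff_u {n : WithTop ℕ∞} (hR : 0 < R) (hd : 0 < d) : ContDiff ℝ n (u R d) := by
  unfold u U
  apply ContDiff.sub
  · exact contDiff_const.sub (contDiff_const.mul (contDiff_S.log (fun z => (S_pos hd _ _).ne')))
  · exact (contDiff_q hd).log (fun z => (q_pos hR hd _ _).ne')

lemma exp_two_u (hR : 0 < R) (hd : 0 < d) (z : ℂ) :
    Real.exp (2 * u R d z) = 4 / (R ^ 2 * s d z.re z.im * q R d z.re z.im ^ 2) := by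
  have hs := s_pos hd z.re z.im
  have hq := q_pos hR hd z.re z.im
  have hS := S_pos hd z.re z.im
  unfold u U
  have h1 : Real.log (S d z.re z.im) = 2 * Real.log (s d z.re z.im) := by
    rw [← s_sq hd, Real.log_pow]; norm_num
  have h2 : 2 * (Real.log (2 / R) - 1 / 4 * Real.log (S d z.re z.im) - Real.log (q R d z.re z.im))
      = Real.log (4 / (R ^ 2 * s d z.re z.im * q R d z.re z.im ^ 2)) := by
    rw [h1, Real.log_div (by norm_num) hR.ne', Real.log_div (by norm_num) (by positivity),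
      Real.log_mul (by positivity) (by positivity), Real.log_mul (by positivity) hs.ne',
      Real.log_pow, Real.log_pow, show (4 : ℝ) = 2 ^ 2 by norm_num, Real.log_pow]
    push_cast
    ring
  rw [h2, Real.exp_log (by positivity)]

lemma supersol (hR : 0 < R) (hd : 0 < d) (z : ℂ) :
    Δ (u R d) z + Real.exp (2 * u R d z) ≤ 0 := by
  have hL : Δ (u R d) z = Uxx R d z.re z.im + Uyy R d z.re z.im :=
    laplacian_complex (F := U R d) (contDiff_u hR hd) (hasDerivAt_U_x hR hd)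
      (hasDerivAt_Ux_x hR hd) (hasDerivAt_U_y hR hd) (hasDerivAt_Uy_y hR hd) z
  rw [hL, exp_two_u hR hd]
  set x := z.re
  set y := z.im
  have hs := s_pos hd x y
  have hq := q_pos hR hd x y
  have hS := S_pos hd x y
  have hsq := s_sq hd x y
  set σ := s d x y with hσ
  have hqdef : q R d x y = (x ^ 2 + y ^ 2) / R ^ 2 + σ := rfl
  have hSdef : S d x y = (1 - x ^ 2 + y ^ 2) ^ 2 + 4 * x ^ 2 * y ^ 2 + d ^ 2 := rfl
  have hSxdef : Sx x y = 4 * x * (x ^ 2 + y ^ 2) - 4 * x := rfl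
  have hSydef : Sy x y = 4 * y * (x ^ 2 + y ^ 2) + 4 * y := rfl
  have e1 : ((12 * x ^ 2 + 4 * y ^ 2 - 4) * S d x y - Sx x y ^ 2)
      + ((12 * y ^ 2 + 4 * x ^ 2 + 4) * S d x y - Sy x y ^ 2) = 16 * (x ^ 2 + y ^ 2) * d ^ 2 := by
    rw [hSdef, hSxdef, hSydef]; ring
  have e2 : ((2 / R ^ 2 + ((12 * x ^ 2 + 4 * y ^ 2 - 4) / (2 * σ) - Sx x y ^ 2 / (4 * σ ^ 3)))
        * q R d x y - (2 * x / R ^ 2 + Sx x y / (2 * σ)) ^ 2)
      + ((2 / R ^ 2 + ((12 * y ^ 2 + 4 * x ^ 2 + 4) / (2 * σ) - Sy x y ^ 2 / (4 * σ ^ 3)))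
        * q R d x y - (2 * y / R ^ 2 + Sy x y / (2 * σ)) ^ 2)
      = 4 * (1 + d ^ 2) / (R ^ 2 * σ) + 4 * (x ^ 2 + y ^ 2) ^ 2 * d ^ 2 / (R ^ 2 * σ ^ 3)
        + 8 * (x ^ 2 + y ^ 2) * d ^ 2 / σ ^ 2
        + (σ ^ 2 - S d x y) * (4 * σ ^ 2 + 4 * (x ^ 2 + y ^ 2) ^ 2 + 8 * (x ^ 2 + y ^ 2) * R ^ 2 * σ)
          / (R ^ 2 * σ ^ 3) := by
    rw [hSdef, hSxdef, hSydef, hqdef]
    field_simp
    ring
  have h0 : σ ^ 2 - S d x y = 0 := by linarith
  rw [h0, zero_mul, zero_div, add_zero] at e2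
  have e3 : Uxx R d x y + Uyy R d x y = -(4 * (x ^ 2 + y ^ 2) * d ^ 2 / S d x y ^ 2)
      - (4 * (1 + d ^ 2) / (R ^ 2 * σ) + 4 * (x ^ 2 + y ^ 2) ^ 2 * d ^ 2 / (R ^ 2 * σ ^ 3)
        + 8 * (x ^ 2 + y ^ 2) * d ^ 2 / σ ^ 2) / q R d x y ^ 2 := by
    rw [← e2]
    unfold Uxx Uyy
    rw [← hσ]
    have e4 : 4 * (x ^ 2 + y ^ 2) * d ^ 2 / S d x y ^ 2
        = (1 / 4) * ((16 * (x ^ 2 + y ^ 2) * d ^ 2) / S d x y ^ 2) := by ring
    rw [e4, ← e1]
    ring
  rw [e3]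
  have e5 : 4 / (R ^ 2 * σ * q R d x y ^ 2) = (4 / (R ^ 2 * σ)) / q R d x y ^ 2 := by
    field_simp
  rw [e5]
  have e6 : (4 / (R ^ 2 * σ)) / q R d x y ^ 2 ≤ (4 * (1 + d ^ 2) / (R ^ 2 * σ)
      + 4 * (x ^ 2 + y ^ 2) ^ 2 * d ^ 2 / (R ^ 2 * σ ^ 3)
        + 8 * (x ^ 2 + y ^ 2) * d ^ 2 / σ ^ 2) / q R d x y ^ 2 := by
    apply div_le_div_of_nonneg_right _ (by positivity)
    have e7 : 4 * (1 + d ^ 2) / (R ^ 2 * σ) = 4 / (R ^ 2 * σ) + 4 * d ^ 2 / (R ^ 2 * σ) := by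
      ring
    rw [e7]
    have : 0 ≤ 4 * d ^ 2 / (R ^ 2 * σ) := by positivity
    have : 0 ≤ 4 * (x ^ 2 + y ^ 2) ^ 2 * d ^ 2 / (R ^ 2 * σ ^ 3) := by positivity
    have : 0 ≤ 8 * (x ^ 2 + y ^ 2) * d ^ 2 / σ ^ 2 := by positivity
    linarith
  have e8 : 0 ≤ 4 * (x ^ 2 + y ^ 2) * d ^ 2 / S d x y ^ 2 := by positivity
  linarith

lemma norm_sq' (z : ℂ) : ‖z‖ ^ 2 = z.re ^ 2 + z.im ^ 2 := by
  rw [← Complex.normSq_eq_norm_sq, Complex.normSq_apply]; ring

lemma le_s (hd : 0 < d) (x y : ℝ) : d ≤ s d x y := by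
  apply Real.le_sqrt_of_sq_le
  unfold S
  nlinarith [sq_nonneg (1 - x ^ 2 + y ^ 2), sq_nonneg (x * y)]

lemma area (hR : 0 < R) (hd : 0 < d) : Integrable (fun z => Real.exp (2 * u R d z)) := by
  set c : ℝ := min (1 / R ^ 2) d with hc
  have hc0 : 0 < c := lt_min (by positivity) hd
  have hdom : Integrable (fun z : ℂ => (4 / (R ^ 2 * d * c ^ 2)) * (1 + ‖z‖ ^ 2) ^ (-(4 : ℝ) / 2)) :=
    (integrable_rpow_neg_one_add_norm_sq (by rw [Complex.finrank_real_complex]; norm_num)).const_mul _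
  refine hdom.mono' ?_ (Eventually.of_forall fun z => ?_)
  · have : Continuous (u R d) := (contDiff_u (n := 0) hR hd).continuous
    exact (Real.continuous_exp.comp (continuous_const.mul this)).aestronglyMeasurable
  · rw [Real.norm_of_nonneg (Real.exp_pos _).le, exp_two_u hR hd]
    have h1 : (1 + ‖z‖ ^ 2) ^ (-(4 : ℝ) / 2) = ((1 + ‖z‖ ^ 2) ^ 2)⁻¹ := by
      rw [show (-(4 : ℝ) / 2) = -((2 : ℕ) : ℝ) by norm_num, Real.rpow_neg (by positivity),
        Real.rpow_natCast]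
    rw [h1]
    have hs := s_pos hd z.re z.im
    have hq : c * (1 + ‖z‖ ^ 2) ≤ q R d z.re z.im := by
      have h2 : c ≤ 1 / R ^ 2 := min_le_left _ _
      have h3 : c ≤ d := min_le_right _ _
      have h4 := le_s hd z.re z.im
      have h5 : c * ‖z‖ ^ 2 ≤ (1 / R ^ 2) * ‖z‖ ^ 2 := mul_le_mul_of_nonneg_right h2 (by positivity)
      have h6 : q R d z.re z.im = (1 / R ^ 2) * ‖z‖ ^ 2 + s d z.re z.im := by
        rw [norm_sq']; unfold q; ring
      rw [h6]
      nlinarith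
    have hq2 : (c * (1 + ‖z‖ ^ 2)) ^ 2 ≤ q R d z.re z.im ^ 2 :=
      pow_le_pow_left₀ (by positivity) hq 2
    rw [← div_eq_mul_inv, div_div]
    apply div_le_div_of_nonneg_left (by norm_num) (by positivity)
    calc R ^ 2 * d * c ^ 2 * (1 + ‖z‖ ^ 2) ^ 2 = R ^ 2 * d * (c * (1 + ‖z‖ ^ 2)) ^ 2 := by ring
      _ ≤ R ^ 2 * s d z.re z.im * q R d z.re z.im ^ 2 := by
        apply mul_le_mul _ hq2 (by positivity) (by positivity)
        exact mul_le_mul_of_nonneg_left (le_s hd _ _) (by positivity)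

/-! ### the distance -/

/-- derivative of `S` -/
noncomputable def SD (z : ℂ) : ℂ →L[ℝ] ℝ :=
  Sx z.re z.im • Complex.reCLM + Sy z.re z.im • Complex.imCLM

lemma hasFDerivAt_S (z : ℂ) : HasFDerivAt (fun z : ℂ => S d z.re z.im) (SD z) z := by
  have hx : HasFDerivAt (fun z : ℂ => z.re) Complex.reCLM z := Complex.reCLM.hasFDerivAt
  have hy : HasFDerivAt (fun z : ℂ => z.im) Complex.imCLM z := Complex.imCLM.hasFDerivAt
  have h1 := (((((hx.pow 2).const_sub 1).add (hy.pow 2)).pow 2).add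
    (((hx.pow 2).const_mul 4).mul (hy.pow 2))).add_const (d ^ 2)
  refine (h1.congr_of_eventuallyEq (Eventually.of_forall fun w => ?_)).congr_fderiv ?_
  · simp [S]
  · ext v
    simp [SD, Sx, Sy]
    ring

/-- `|z|²/s` -/
noncomputable def M (d : ℝ) (z : ℂ) : ℝ := (z.re ^ 2 + z.im ^ 2) / s d z.re z.im

/-- derivative of `M` -/
noncomputable def MD (d : ℝ) (z : ℂ) : ℂ →L[ℝ] ℝ :=
  ((2 * z.re * s d z.re z.im - (z.re ^ 2 + z.im ^ 2) * Sx z.re z.im / (2 * s d z.re z.im))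
      / s d z.re z.im ^ 2) • Complex.reCLM +
  ((2 * z.im * s d z.re z.im - (z.re ^ 2 + z.im ^ 2) * Sy z.re z.im / (2 * s d z.re z.im))
      / s d z.re z.im ^ 2) • Complex.imCLM

lemma hasFDerivAt_M (hd : 0 < d) (z : ℂ) : HasFDerivAt (M d) (MD d z) z := by
  have hx : HasFDerivAt (fun z : ℂ => z.re) Complex.reCLM z := Complex.reCLM.hasFDerivAt
  have hy : HasFDerivAt (fun z : ℂ => z.im) Complex.imCLM z := Complex.imCLM.hasFDerivAt
  have hs := s_pos hd z.re z.im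
  have hs1 : HasFDerivAt (fun z : ℂ => s d z.re z.im) ((1 / (2 * s d z.re z.im)) • SD z) z :=
    (hasFDerivAt_S z).sqrt (S_pos hd _ _).ne'
  have hr : HasFDerivAt (fun z : ℂ => z.re ^ 2 + z.im ^ 2)
      ((2 * z.re) • Complex.reCLM + (2 * z.im) • Complex.imCLM) z := by
    refine ((hx.pow 2).add (hy.pow 2)).congr_fderiv ?_
    ext v
    simp
  have hinv : HasFDerivAt (fun z : ℂ => (s d z.re z.im)⁻¹)
      ((-(s d z.re z.im ^ 2)⁻¹) • ((1 / (2 * s d z.re z.im)) • SD z)) z :=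
    (hasDerivAt_inv hs.ne').comp_hasFDerivAt z hs1
  have h1 := hr.mul hinv
  refine (h1.congr_of_eventuallyEq (Eventually.of_forall fun w => ?_)).congr_fderiv ?_
  · simp only [M, Pi.mul_apply]
    rw [div_eq_mul_inv]
  · apply ContinuousLinearMap.ext
    intro v
    simp only [MD, SD, add_apply, smul_apply, smul_eq_mul, Complex.reCLM_apply,
      Complex.imCLM_apply]
    field_simp
    ring

/-- outer function -/
lemma hasDerivAt_outer (hR : 0 < R) {t : ℝ} (ht : 0 < t) :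
    HasDerivAt (fun t => 2 * Real.arctan (Real.sqrt t / R)) (R / (Real.sqrt t * (R ^ 2 + t))) t := by
  have hst : 0 < Real.sqrt t := Real.sqrt_pos.mpr ht
  have h1 := ((((Real.hasDerivAt_sqrt ht.ne').div_const R).arctan).const_mul 2)
  refine h1.congr_deriv ?_
  have : Real.sqrt t ^ 2 = t := Real.sq_sqrt ht.le
  have h2 : 1 + (Real.sqrt t / R) ^ 2 = (R ^ 2 + t) / R ^ 2 := by
    rw [div_pow, this]; field_simp
  rw [h2]
  field_simp

/-- the distance-like function -/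
noncomputable def rho (R d : ℝ) (z : ℂ) : ℝ := 2 * Real.arctan (Real.sqrt (M d z) / R)

/-- its derivative -/
noncomputable def rhoD (R d : ℝ) (z : ℂ) : ℂ →L[ℝ] ℝ :=
  (R / (Real.sqrt (M d z) * (R ^ 2 + M d z))) • MD d z

lemma M_pos (hd : 0 < d) {z : ℂ} (hz : z ≠ 0) : 0 < M d z := by
  unfold M
  apply div_pos _ (s_pos hd _ _)
  rw [← norm_sq']
  have := norm_pos_iff.mpr hz
  positivity

lemma M_nonneg (hd : 0 < d) (z : ℂ) : 0 ≤ M d z := by
  unfold M
  have := s_pos hd z.re z.im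
  positivity

lemma hasFDerivAt_rho (hR : 0 < R) (hd : 0 < d) {z : ℂ} (hz : z ≠ 0) :
    HasFDerivAt (rho R d) (rhoD R d z) z :=
  (hasDerivAt_outer hR (M_pos hd hz)).comp_hasFDerivAt z (hasFDerivAt_M hd z)

lemma continuous_s (hd : 0 < d) : Continuous (fun z : ℂ => s d z.re z.im) :=
  (contDiff_s (n := 0) hd).continuous

lemma continuous_M (hd : 0 < d) : Continuous (M d) := by
  unfold M
  have h1 := Complex.continuous_re
  have h2 := Complex.continuous_im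
  exact Continuous.div (by fun_prop) (continuous_s hd) (fun z => (s_pos hd _ _).ne')

lemma continuous_MD (hd : 0 < d) : Continuous (MD d) := by
  have h1 := Complex.continuous_re
  have h2 := Complex.continuous_im
  have h3 := continuous_s hd
  have hs : ∀ z : ℂ, s d z.re z.im ≠ 0 := fun z => (s_pos hd _ _).ne'
  have hsx : Continuous (fun z : ℂ => Sx z.re z.im) := by unfold Sx; fun_prop
  have hsy : Continuous (fun z : ℂ => Sy z.re z.im) := by unfold Sy; fun_prop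
  have k1 : Continuous (fun z : ℂ => (2 * z.re * s d z.re z.im - (z.re ^ 2 + z.im ^ 2)
      * Sx z.re z.im / (2 * s d z.re z.im)) / s d z.re z.im ^ 2) := by
    apply Continuous.div _ (h3.pow 2) (fun z => pow_ne_zero 2 (hs z))
    apply Continuous.sub (by fun_prop)
    exact Continuous.div (by fun_prop) (by fun_prop) (fun z => mul_ne_zero two_ne_zero (hs z))
  have k2 : Continuous (fun z : ℂ => (2 * z.im * s d z.re z.im - (z.re ^ 2 + z.im ^ 2)
      * Sy z.re z.im / (2 * s d z.re z.im)) / s d z.re z.im ^ 2) := by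
    apply Continuous.div _ (h3.pow 2) (fun z => pow_ne_zero 2 (hs z))
    apply Continuous.sub (by fun_prop)
    exact Continuous.div (by fun_prop) (by fun_prop) (fun z => mul_ne_zero two_ne_zero (hs z))
  exact (k1.smul continuous_const).add (k2.smul continuous_const)

lemma continuousOn_rhoD (hR : 0 < R) (hd : 0 < d) : ContinuousOn (rhoD R d) {z : ℂ | z ≠ 0} := by
  have hM := continuous_M hd
  have k1 : ContinuousOn (fun z : ℂ => R / (Real.sqrt (M d z) * (R ^ 2 + M d z))) {z : ℂ | z ≠ 0} := by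
    apply ContinuousOn.div continuousOn_const
    · exact ((Real.continuous_sqrt.comp hM).mul (continuous_const.add hM)).continuousOn
    · intro z hz
      have h1 := M_pos hd hz
      have h2 := Real.sqrt_pos.mpr h1
      positivity
  exact k1.smul (continuous_MD hd).continuousOn

lemma rhoD_le (hR : 0 < R) (hd : 0 < d) {z : ℂ} (hz : z ≠ 0) (v : ℂ) :
    |rhoD R d z v| ≤ Real.sqrt (1 + d ^ 2) * (Real.exp (u R d z) * ‖v‖) := by
  apply abs_le_of_sq_le_sq _ (by positivity)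
  rw [mul_pow, mul_pow, Real.sq_sqrt (by positivity)]
  have he : Real.exp (u R d z) ^ 2 = 4 / (R ^ 2 * s d z.re z.im * q R d z.re z.im ^ 2) := by
    rw [← exp_two_u hR hd, ← Real.exp_nat_mul]
    norm_num
  rw [he]
  have hMp := M_pos hd hz
  have hr0 : 0 < z.re ^ 2 + z.im ^ 2 := by
    rw [← norm_sq']
    have := norm_pos_iff.mpr hz
    positivity
  have hMdef : M d z = (z.re ^ 2 + z.im ^ 2) / s d z.re z.im := rfl
  have hs := s_pos hd z.re z.im
  have hsq := s_sq hd z.re z.im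
  have hq := q_pos hR hd z.re z.im
  have hqdef : q R d z.re z.im = (z.re ^ 2 + z.im ^ 2) / R ^ 2 + s d z.re z.im := rfl
  have hv := norm_sq' v
  set x := z.re
  set y := z.im
  set σ := s d x y with hσ
  set r2 := x ^ 2 + y ^ 2 with hr2
  have hSdef : σ ^ 2 = (1 - x ^ 2 + y ^ 2) ^ 2 + 4 * x ^ 2 * y ^ 2 + d ^ 2 := hsq
  -- gradient of M
  set a := 2 * x * σ - r2 * Sx x y / (2 * σ) with ha
  set b := 2 * y * σ - r2 * Sy x y / (2 * σ) with hb
  have hMDv : MD d z v = (a * v.re + b * v.im) / σ ^ 2 := by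
    have : MD d z v = a / σ ^ 2 * v.re + b / σ ^ 2 * v.im := rfl
    rw [this]; ring
  have hab : a ^ 2 + b ^ 2 ≤ 4 * (1 + d ^ 2) * r2 := by
    have h1 : a ^ 2 + b ^ 2 = 4 * (1 + d ^ 2) * r2 - 4 * r2 ^ 3 * d ^ 2 / σ ^ 2
        + (σ ^ 2 - ((1 - x ^ 2 + y ^ 2) ^ 2 + 4 * x ^ 2 * y ^ 2 + d ^ 2))
          * (4 * r2 - 4 * r2 ^ 3 / σ ^ 2) := by
      rw [ha, hb, hr2]
      unfold Sx Sy
      field_simp
      ring
    rw [hSdef, sub_self, zero_mul, add_zero, ← hSdef] at h1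
    rw [h1]
    have : 0 ≤ 4 * r2 ^ 3 * d ^ 2 / σ ^ 2 := by positivity
    linarith
  have hcs : (a * v.re + b * v.im) ^ 2 ≤ (a ^ 2 + b ^ 2) * ‖v‖ ^ 2 := by
    rw [hv]
    nlinarith [sq_nonneg (a * v.im - b * v.re)]
  have hrho : rhoD R d z v ^ 2 = R ^ 2 * (a * v.re + b * v.im) ^ 2
      / (M d z * (R ^ 2 + M d z) ^ 2 * σ ^ 4) := by
    have h1 : rhoD R d z v = (R / (Real.sqrt (M d z) * (R ^ 2 + M d z))) * MD d z v := rfl
    rw [h1, hMDv, mul_pow, div_pow, div_pow, mul_pow, Real.sq_sqrt hMp.le]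
    field_simp
  rw [hrho]
  have hRM : R ^ 2 + M d z = R ^ 2 * q R d x y / σ := by
    rw [hMdef, hqdef]; field_simp; ring
  rw [hRM, hMdef]
  have h2 : R ^ 2 * (a * v.re + b * v.im) ^ 2 / (r2 / σ * (R ^ 2 * q R d x y / σ) ^ 2 * σ ^ 4)
      = (a * v.re + b * v.im) ^ 2 / (r2 * (R ^ 2 * σ * q R d x y ^ 2)) := by
    field_simp
  rw [h2]
  calc (a * v.re + b * v.im) ^ 2 / (r2 * (R ^ 2 * σ * q R d x y ^ 2))
      ≤ (4 * (1 + d ^ 2) * r2 * ‖v‖ ^ 2) / (r2 * (R ^ 2 * σ * q R d x y ^ 2)) := by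
        apply div_le_div_of_nonneg_right _ (by positivity)
        exact hcs.trans (mul_le_mul_of_nonneg_right hab (by positivity))
    _ = (1 + d ^ 2) * (4 / (R ^ 2 * σ * q R d x y ^ 2) * ‖v‖ ^ 2) := by
        field_simp

lemma M_one (hd : 0 < d) : M d 1 = 1 / d := by
  unfold M s S
  simp only [Complex.one_re, Complex.one_im]
  norm_num
  rw [Real.sqrt_sq hd.le]

lemma M_neg_one (hd : 0 < d) : M d (-1) = 1 / d := by
  unfold M s S
  simp only [Complex.neg_re, Complex.neg_im, Complex.one_re, Complex.one_im]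
  norm_num
  rw [Real.sqrt_sq hd.le]

lemma M_lt_one (hd : 0 < d) {z : ℂ} (hz : z.re = 0) : M d z < 1 := by
  unfold M
  rw [div_lt_one (s_pos hd _ _), hz]
  have h1 : (1 + z.im ^ 2) ≤ s d 0 z.im := by
    apply Real.le_sqrt_of_sq_le
    unfold S
    nlinarith [sq_nonneg d]
  nlinarith

lemma length_ge (hR : 0 < R) (hd : 0 < d) (hd1 : d < 1) {γ : ℝ → ℂ} (hγ : PwC1 γ)
    (h0 : γ 0 = 1) (h1 : γ 1 = -1) :
    4 * (Real.arctan (Real.sqrt (1 / d) / R) - Real.arctan (1 / R))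
      ≤ Real.sqrt (1 + d ^ 2) * glen (u R d) γ := by
  have hcu : Continuous (u R d) := (contDiff_u (n := 0) hR hd).continuous
  have hcγ := hγ.cont
  have hMc : ContinuousOn (fun t => M d (γ t)) (Icc 0 1) := (continuous_M hd).comp_continuousOn hcγ
  have hM1 : 1 < 1 / d := by rw [lt_div_iff₀ hd]; linarith
  -- crossing the imaginary axis
  obtain ⟨t₀, ht₀, hre⟩ : ∃ t ∈ Icc (0 : ℝ) 1, (γ t).re = 0 := by
    have hc : ContinuousOn (fun t => (γ t).re) (Icc 0 1) :=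
      Complex.continuous_re.comp_continuousOn hcγ
    have := intermediate_value_Icc' (zero_le_one) hc
    apply this
    simp [h0, h1]
  have hMt₀ : M d (γ t₀) < 1 := M_lt_one hd hre
  set K : Set ℝ := {t | t ∈ Icc (0 : ℝ) 1 ∧ M d (γ t) = 1} with hK
  have hKc : IsClosed K := by
    have := hMc.preimage_isClosed_of_isClosed isClosed_Icc (isClosed_singleton (x := (1 : ℝ)))
    have h2 : K = Icc (0 : ℝ) 1 ∩ (fun t => M d (γ t)) ⁻¹' {1} := by
      ext t; simp [K]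
    rw [h2]
    exact this
  have hKcomp : IsCompact K := isCompact_Icc.of_isClosed_subset hKc (fun t ht => ht.1)
  have hleft : ∀ t ∈ Icc (0 : ℝ) 1, M d (γ t) ≤ 1 → ∃ t' ∈ K, t' ≤ t := by
    intro t ht hMt
    have hc : ContinuousOn (fun t => M d (γ t)) (Icc 0 t) :=
      hMc.mono (Icc_subset_Icc le_rfl ht.2)
    have h2 := intermediate_value_Icc' ht.1 hc
    have h3 : (1 : ℝ) ∈ Icc (M d (γ t)) (M d (γ 0)) := by
      refine ⟨hMt, ?_⟩
      rw [h0, M_one hd]; exact hM1.le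
    obtain ⟨t', ht', h4⟩ := h2 h3
    exact ⟨t', ⟨⟨ht'.1, ht'.2.trans ht.2⟩, h4⟩, ht'.2⟩
  have hright : ∀ t ∈ Icc (0 : ℝ) 1, M d (γ t) ≤ 1 → ∃ t' ∈ K, t ≤ t' := by
    intro t ht hMt
    have hc : ContinuousOn (fun t => M d (γ t)) (Icc t 1) :=
      hMc.mono (Icc_subset_Icc ht.1 le_rfl)
    have h2 := intermediate_value_Icc ht.2 hc
    have h3 : (1 : ℝ) ∈ Icc (M d (γ t)) (M d (γ 1)) := by
      refine ⟨hMt, ?_⟩
      rw [h1, M_neg_one hd]; exact hM1.le
    obtain ⟨t', ht', h4⟩ := h2 h3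
    exact ⟨t', ⟨⟨ht.1.trans ht'.1, ht'.2⟩, h4⟩, ht'.1⟩
  obtain ⟨tK, htK, -⟩ := hleft t₀ ht₀ hMt₀.le
  have hKne : K.Nonempty := ⟨tK, htK⟩
  have hb := hKcomp.sInf_mem hKne
  have hb' := hKcomp.sSup_mem hKne
  set b := sInf K with hbdef
  set b' := sSup K with hb'def
  have hbb' : b ≤ b' := (csInf_le hKcomp.bddBelow htK).trans (le_csSup hKcomp.bddAbove htK)
  have hne1 : ∀ t ∈ Icc (0 : ℝ) b, γ t ∈ {z : ℂ | z ≠ 0} := by
    intro t ht h2
    have ht1 : t ∈ Icc (0 : ℝ) 1 := ⟨ht.1, ht.2.trans hb.1.2⟩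
    have h3 : M d (γ t) = 0 := by rw [h2]; simp [M]
    obtain ⟨t', ht', h4⟩ := hleft t ht1 (by rw [h3]; norm_num)
    have h5 : b ≤ t' := csInf_le hKcomp.bddBelow ht'
    have h6 : t = b := le_antisymm ht.2 (h5.trans h4)
    rw [h6] at h3
    rw [hb.2] at h3
    norm_num at h3
  have hne2 : ∀ t ∈ Icc b' 1, γ t ∈ {z : ℂ | z ≠ 0} := by
    intro t ht h2
    have ht1 : t ∈ Icc (0 : ℝ) 1 := ⟨hb'.1.1.trans ht.1, ht.2⟩
    have h3 : M d (γ t) = 0 := by rw [h2]; simp [M]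
    obtain ⟨t', ht', h4⟩ := hright t ht1 (by rw [h3]; norm_num)
    have h5 : t' ≤ b' := le_csSup hKcomp.bddAbove ht'
    have h6 : t = b' := le_antisymm (h4.trans h5) ht.1
    rw [h6] at h3
    rw [hb'.2] at h3
    norm_num at h3
  have L1 := lower hγ hcu (a := 0) (b := b) le_rfl hb.1.1 hb.1.2 hne1
    (fun z hz => hasFDerivAt_rho hR hd hz) (continuousOn_rhoD hR hd)
    (fun z hz v => rhoD_le hR hd hz v)
  have L2 := lower hγ hcu (a := b') (b := 1) hb'.1.1 hb'.1.2 le_rfl hne2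
    (fun z hz => hasFDerivAt_rho hR hd hz) (continuousOn_rhoD hR hd)
    (fun z hz v => rhoD_le hR hd hz v)
  have r0 : rho R d (γ 0) = 2 * Real.arctan (Real.sqrt (1 / d) / R) := by
    unfold rho; rw [h0, M_one hd]
  have r1 : rho R d (γ 1) = 2 * Real.arctan (Real.sqrt (1 / d) / R) := by
    unfold rho; rw [h1, M_neg_one hd]
  have rb : rho R d (γ b) = 2 * Real.arctan (1 / R) := by
    unfold rho; rw [hb.2, Real.sqrt_one]
  have rb' : rho R d (γ b') = 2 * Real.arctan (1 / R) := by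
    unfold rho; rw [hb'.2, Real.sqrt_one]
  rw [r0, rb] at L1
  rw [r1, rb'] at L2
  have L1' := (abs_le.mp L1).1
  have L2' := (abs_le.mp L2).2
  set F : ℝ → ℝ := fun t => Real.exp (u R d (γ t)) * ‖deriv γ t‖ with hF
  have hint := hγ.int hcu
  have i1 : IntervalIntegrable F volume 0 b := hint.mono_set (by
    rw [uIcc_of_le hb.1.1, uIcc_of_le zero_le_one]; exact Icc_subset_Icc le_rfl hb.1.2)
  have i2 : IntervalIntegrable F volume b b' := hint.mono_set (by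
    rw [uIcc_of_le hbb', uIcc_of_le zero_le_one]; exact Icc_subset_Icc hb.1.1 hb'.1.2)
  have i3 : IntervalIntegrable F volume b' 1 := hint.mono_set (by
    rw [uIcc_of_le hb'.1.2, uIcc_of_le zero_le_one]; exact Icc_subset_Icc hb'.1.1 le_rfl)
  have hsum : glen (u R d) γ = (∫ t in (0 : ℝ)..b, F t) + (∫ t in b..b', F t) + ∫ t in b'..1, F t := by
    rw [intervalIntegral.integral_add_adjacent_intervals i1 i2,
      intervalIntegral.integral_add_adjacent_intervals (i1.trans i2) i3]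
    rfl
  have hmid : 0 ≤ ∫ t in b..b', F t :=
    intervalIntegral.integral_nonneg hbb' (fun t _ => by positivity)
  have hsq : 0 ≤ Real.sqrt (1 + d ^ 2) := Real.sqrt_nonneg _
  rw [hsum, mul_add, mul_add]
  have := mul_nonneg hsq hmid
  linarith

/-- Finite-area conformal metrics on the plane with curvature at least one can have diameter
arbitrarily close to `2π`; in particular larger than `π`. -/
theorem result : ∀ L < 2 * Real.pi, ∃ u : ℂ → ℝ, AnalyticOnNhd ℝ u univ ∧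
    (∀ z, Δ u z + Real.exp (2 * u z) ≤ 0) ∧ Integrable (fun z => Real.exp (2 * u z)) ∧
    ∃ x y : ℂ, L < gdist u x y := by
  intro L hL
  have hinv : Tendsto (fun n : ℕ => 1 / ((n : ℝ))) atTop (𝓝 0) := tendsto_one_div_atTop_nhds_zero_nat
  have hat : Tendsto (fun n : ℕ => Real.arctan (n : ℝ)) atTop (𝓝 (Real.pi / 2)) :=
    (Real.tendsto_arctan_atTop.mono_right nhdsWithin_le_nhds).comp tendsto_natCast_atTop_atTop
  have hd : Tendsto (fun n : ℕ => ((1 / (n : ℝ)) ^ 4)) atTop (𝓝 0) := by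
    simpa using hinv.pow 4
  have hsq : Tendsto (fun n : ℕ => Real.sqrt (1 + ((1 / (n : ℝ)) ^ 4) ^ 2)) atTop (𝓝 1) := by
    have h1 : Tendsto (fun n : ℕ => 1 + ((1 / (n : ℝ)) ^ 4) ^ 2) atTop (𝓝 1) := by
      simpa using (hd.pow 2).const_add 1
    have := (Real.continuous_sqrt.tendsto 1).comp h1
    simpa [Function.comp_def] using this
  have hat2 : Tendsto (fun n : ℕ => Real.arctan (1 / (n : ℝ))) atTop (𝓝 0) := by
    have := (Real.continuous_arctan.tendsto 0).comp hinv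
    simpa [Function.comp_def] using this
  have hlim : Tendsto (fun n : ℕ => 4 * (Real.arctan (n : ℝ) - Real.arctan (1 / (n : ℝ)))
      / Real.sqrt (1 + ((1 / (n : ℝ)) ^ 4) ^ 2)) atTop (𝓝 (4 * (Real.pi / 2 - 0) / 1)) :=
    (((hat.sub hat2).const_mul 4).div hsq one_ne_zero)
  have hev := hlim.eventually_const_lt (show L < 4 * (Real.pi / 2 - 0) / 1 by linarith)
  obtain ⟨n, hn1, hn2⟩ := (hev.and (eventually_ge_atTop 2)).exists
  have hn2' : (2 : ℝ) ≤ n := by exact_mod_cast hn2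
  have hn0 : (0 : ℝ) < n := by linarith
  set d : ℝ := (1 / (n : ℝ)) ^ 4 with hddef
  have hdpos : 0 < d := by positivity
  have hd1 : d < 1 := by
    rw [hddef]
    apply pow_lt_one₀ (by positivity)
    · rw [div_lt_one hn0]; linarith
    · norm_num
  refine ⟨u n d, ?_, supersol hn0 hdpos, area hn0 hdpos, 1, -1, ?_⟩
  · rw [← contDiff_omega_iff_analyticOnNhd]
    exact contDiff_u hn0 hdpos
  · refine lt_of_lt_of_le hn1 ?_
    apply le_gdist
    intro γ hγ h0 h1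
    rw [div_le_iff₀ (Real.sqrt_pos.mpr (by positivity)), mul_comm (glen _ _)]
    have h2 := length_ge hn0 hdpos hd1 hγ h0 h1
    have h3 : Real.sqrt (1 / d) / n = n := by
      have : 1 / d = ((n : ℝ) ^ 2) ^ 2 := by
        rw [hddef]; field_simp
      rw [this, Real.sqrt_sq (by positivity)]
      field_simp
    rw [h3] at h2
    exact h2

end Pool.Agent.Results.MP_0fb7ac_an.LargeDiameter
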